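import Pool.Agent.Q59.TC.Slopes
import Pool.Agent.Q59.EC.Super

/-!
# Tate tensors with values in the cohomology of a variety
-/

namespace Pool.Agent.Q59.TC

open Finset Pool.Agent.Q59.GC Pool.Agent.Q59.EC Pool.Agent.Q59.VZ
open Pool.Agent.H916T (IsTate)

variable {N : ℕ} {I : Type} {Λ : Labels N I}

lemma sum_decomposed {κ : Type} [Fintype κ] {w : κ → Letter Λ} {L P : Type} [Fintype L]
    [Fintype P] {μ : L → I} {e : (Σ j : L, Fin (Λ.dim (μ j))) ⊕ (P × Fin 2) ≃ κ}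
    (h : Decomposed w L P μ e) (o : I → ℚ) (ho : ∀ i, o (Λ.star i) = - o i) :
    ∑ k, o (w k).1 / Λ.dim (w k).1 = ∑ j, o (μ j) := by
  obtain ⟨h0, h1, h2⟩ := h
  rw [← Equiv.sum_comp e, Fintype.sum_sum_type, Fintype.sum_sigma, Fintype.sum_prod_type]
  have e1 : ∀ j, ∑ a : Fin (Λ.dim (μ j)), o (w (e (Sum.inl ⟨j, a⟩))).1 /
      Λ.dim (w (e (Sum.inl ⟨j, a⟩))).1 = o (μ j) := by
    intro j
    have e2 : ∀ a : Fin (Λ.dim (μ j)), o (w (e (Sum.inl ⟨j, a⟩))).1 /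
        Λ.dim (w (e (Sum.inl ⟨j, a⟩))).1 = o (μ j) / Λ.dim (μ j) := by
      intro a
      rw [h1 j a]
    rw [sum_congr rfl fun a _ => e2 a, sum_const, card_univ, Fintype.card_fin, nsmul_eq_mul]
    have : (Λ.dim (μ j) : ℚ) ≠ 0 := by exact_mod_cast (h0 j).ne'
    field_simp
  have e3 : ∀ q, ∑ b : Fin 2, o (w (e (Sum.inr (q, b)))).1 /
      Λ.dim (w (e (Sum.inr (q, b)))).1 = 0 := by
    intro q
    rw [Fin.sum_univ_two, h2 q, dual_fst, ho, Λ.dim_star]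
    ring
  rw [sum_congr rfl fun j _ => e1 j, sum_congr rfl fun q _ => e3 q, sum_const_zero, add_zero]

lemma dim_decomposed {κ : Type} [Fintype κ] {l p : ℕ} {μ : Fin l → I}
    (e : (Σ j : Fin l, Fin (Λ.dim (μ j))) ⊕ (Fin p × Fin 2) ≃ κ) :
    ∃ q, ∑ j, Λ.dim (μ j) + q * 2 = Fintype.card κ := by
  have h1 := Fintype.card_congr e
  rw [Fintype.card_sum, Fintype.card_sigma, Fintype.card_prod, Fintype.card_fin,
    Fintype.card_fin] at h1
  simp only [Fintype.card_fin] at h1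
  exact ⟨p, h1⟩

variable [NeZero N] {W : Type} [AddCommGroup W] [Module ℂ W] {p : ℕ}
  {F : (ZMod N)ˣ → ℚ → Submodule ℂ W} {c : ℚ}

/-- the value of a Tate tensor on a word annihilated by the cocharacters -/
lemma value_type (hp : p.Coprime N) {κ : Type} [Fintype κ] {x : (κ → Letter Λ) → W}
    (htype : ∀ (t : (ZMod N)ˣ) (w : κ → Letter Λ),
      x w ∈ F t (c - ∑ k, slope Λ p (t : ZMod N) (w k).1 / Λ.dim (w k).1))
    {w : κ → Letter Λ} {l q : ℕ} {μ : Fin l → I}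
    {e : (Σ j : Fin l, Fin (Λ.dim (μ j))) ⊕ (Fin q × Fin 2) ≃ κ}
    (h : Decomposed w (Fin l) (Fin q) μ e) (t : (ZMod N)ˣ) :
    x w ∈ F t (c - (Fintype.card κ : ℚ) / 2 - excess p (t : ZMod N) (exAll Λ μ)) := by
  have h1 := htype t w
  rw [sum_slope hp, sum_decomposed h (fun i => excess p (t : ZMod N) (Λ.ex i)) fun i => by
    change excess p (t : ZMod N) (Λ.ex (Λ.star i)) = _
    rw [Λ.ex_star]
    exact excess_star hp t _ (Λ.ex_ne i)] at h1
  rw [excess_exAll]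
  have h2 : c - ((Fintype.card κ : ℚ) / 2 + ∑ j, excess p (t : ZMod N) (Λ.ex (μ j))) =
      c - (Fintype.card κ : ℚ) / 2 - ∑ j, excess p (t : ZMod N) (Λ.ex (μ j)) := by ring
  rw [← h2]
  exact h1

variable [DecidableEq I] [Fintype I] {ε : Letter Λ → ℂ}

/-- **Invariants of `D` with values in the cohomology of a variety.** -/
theorem mainG (hp : p.Coprime N) (hε : ∀ x : Letter Λ, ¬ Λ.orth x.1 = true → ε (dual x) = -ε x)
    (hε0 : ∀ x, ε x ≠ 0) {s : ℕ} {x : (Fin s → Letter Λ) → W}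
    (hinv : ∀ g, InD ε g → actW g x = x)
    (htype : ∀ (t : (ZMod N)ˣ) (w : Fin s → Letter Λ),
      x w ∈ F t (c - ∑ k, slope Λ p (t : ZMod N) (w k).1 / Λ.dim (w k).1))
    (P : ∀ l : ℕ, (Fin l → I) → W → Prop)
    (hP : ∀ (l : ℕ) (μ : Fin l → I), (∀ j, 0 < Λ.dim (μ j)) →
      (∃ q, ∑ j, Λ.dim (μ j) + q * 2 = s) → ∀ z : W,
      (∀ t : (ZMod N)ˣ, z ∈ F t (c - s / 2 - excess p (t : ZMod N) (exAll Λ μ))) → P l μ z) :
    x ∈ spanZ P ε (Fin s) := by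
  refine mainZ (Λ := Λ) hε hε0 (fun (t : (ZMod N)ˣ) i => excess p (t : ZMod N) (Λ.ex i))
    (fun t i => ?_) F (c - s / 2) hinv (fun t w => ?_) P
    (fun l μ h1 _ _ h4 z hz => hP l μ h1 ?_ z fun t => ?_)
  · change excess p (t : ZMod N) (Λ.ex (Λ.star i)) = _
    rw [Λ.ex_star]
    exact excess_star hp t _ (Λ.ex_ne i)
  · have h1 := htype t w
    rw [sum_slope hp, Fintype.card_fin] at h1
    have h2 : c - ((s : ℚ) / 2 + ∑ k, excess p (t : ZMod N) (Λ.ex (w k).1) / Λ.dim (w k).1) =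
        c - s / 2 - ∑ k, excess p (t : ZMod N) (Λ.ex (w k).1) / Λ.dim (w k).1 := by ring
    rw [h2] at h1
    exact h1
  · rw [Fintype.card_fin] at h4
    exact h4
  · rw [excess_exAll]
    exact hz t

end Pool.Agent.Q59.TC
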