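import Pool.Agent.Q59.TC.Sys

/-!
# The word of a resonance

Let `w` be a word in the letters of the local systems `S` which is annihilated by the cocharacters of the
maximal torus, and let `α` be a number which has, at the places given by the unit `t`, the slope
`c - Σ slope / dim` (`HasSlope t`). Then `w` consists of pairs and full blocks, and if the slope of `α` is
always integral, the product of the exponents of the blocks is the character of an algebraic line on a
Fermat variety (for the degrees `N` as in `MP_0f183b_ag.RandomCoversTimesVarieties`).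
-/

namespace Pool.Agent.Q59.TC.Res

open Pool.Agent.Q59.GC Pool.Agent.Q59.TC Pool.Agent.Q59.TC.Sys

/-- The letters of the word `w` form pairs (a letter and its dual) and full blocks of the spaces
`V_(μ j)`. -/
def IsDecomposed {N : ℕ} {I : Type} {S : LocalSystems N I} {s : ℕ} (w : Fin s → Letter S.labels)
    {l r : ℕ} (μ : Fin l → I)
    (e : (Σ j : Fin l, Fin (S.labels.dim (μ j))) ⊕ (Fin r × Fin 2) ≃ Fin s) : Prop :=
  (∀ j a, w (e (Sum.inl ⟨j, a⟩)) = ⟨μ j, a⟩) ∧
    ∀ k, w (e (Sum.inr (k, 1))) = dual (w (e (Sum.inr (k, 0))))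

/-- the degrees `N` for which all Tate classes on Fermat varieties of degree `N` in characteristic `p`
are known to be algebraic lines -/
def KnownDegree (p N : ℕ) : Prop :=
  N ≤ 54 ∨ GoodDegree N ∨ ∃ j : ℕ, ∀ r : ℕ, r.Prime → r ∣ N → r ≠ 2 → r ∣ p ^ j + 1

theorem resonance (p : ℕ) (hp : p.Prime) (N : ℕ) [NeZero N] (hpN : p.Coprime N) (I : Type) [Fintype I]
    (S : LocalSystems N I) (HasSlope : (ZMod N)ˣ → ℚ → Prop) (c : ℤ) (s : ℕ)
    (w : Fin s → Letter S.labels) (htor : TorusInv w)
    (hslope : ∀ t : (ZMod N)ˣ,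
      HasSlope t (c - ∑ k, slope S.labels p (t : ZMod N) (w k).1 / S.labels.dim (w k).1)) :
    ∃ (l r : ℕ) (μ : Fin l → I)
      (e : (Σ j : Fin l, Fin (S.labels.dim (μ j))) ⊕ (Fin r × Fin 2) ≃ Fin s),
      IsDecomposed w μ e ∧
      ((∀ u : (ZMod N)ˣ → ℚ, (∀ t, HasSlope t (u t)) → ∃ m : ℤ, ∀ t, u t = m) → KnownDegree p N →
        ∀ A : ∀ M : ℕ, Multiset (ZMod M) → Prop, Admissible p A → A N (exAll S.labels μ)) := by
  classical
  let F : (ZMod N)ˣ → ℚ → Submodule ℂ ℂ := fun t u => if HasSlope t u then ⊤ else ⊥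
  let x : (Fin s → Letter S.labels) → ℂ := fun v => if v = w then 1 else 0
  have hx : IsTateTensor p F (c : ℤ) x := by
    refine ⟨fun v hv => ?_, fun t v => ?_⟩
    · have h1 : v = w := by
        by_contra h
        exact hv (if_neg h)
      rw [h1]
      exact htor
    · by_cases h : v = w
      · have h1 := hslope t
        rw [← h] at h1
        have h2 : F t (((c : ℤ) : ℚ) - ∑ k, slope S.labels p (t : ZMod N) (v k).1 /
            S.labels.dim (v k).1) = ⊤ := if_pos h1
        rw [h2]
        exact Submodule.mem_top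
      · have h1 : x v = 0 := if_neg h
        rw [h1]
        exact Submodule.zero_mem _
  have hw : x w ≠ 0 := by
    have : x w = 1 := if_pos rfl
    rw [this]
    exact one_ne_zero
  obtain ⟨l, r, μ, e, h1, h2, -, -, h5⟩ := main p hp N hpN I S ℂ F (c : ℤ) s x hx w hw
  refine ⟨l, r, μ, e, ⟨h1, h2⟩, fun hInt hN A hA => ?_⟩
  refine (h5 ?_).2.2 hN A hA
  intro u z hz hzu
  refine hInt u fun t => ?_
  by_contra hcon
  have h6 : F t (u t) = ⊥ := if_neg hcon
  have h7 := hzu t
  rw [h6, Submodule.mem_bot] at h7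
  exact hz h7

end Pool.Agent.Q59.TC.Res
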