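import Pool.Agent.Q59.TC.Res

/-!
# Frobenius eigenvalues and groups of finite exponent

`Frobenius` contains the eigenvalues of the Frobenius on the cohomology of a variety `Z` and on the
letters of the local systems; `Frobenius.resonance` describes the words `w` and eigenvalues `α` of `Z`
with `α π_w = q ^ c`. The coefficients are the algebraic integers in `ℂ`.
-/

namespace Pool.Agent.Q59.TC.Fro

open Pool.Agent.Q59.GC Pool.Agent.Q59.TC Pool.Agent.Q59.TC.Sys Pool.Agent.Q59.TC.Res

/-- the ring of all algebraic integers in `ℂ` -/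
abbrev Ints : Type := integralClosure ℤ ℂ

/-- The number `q` of elements of the field, the eigenvalues `π` of the letters, the set `Λ` of the
eigenvalues of the Frobenius on the cohomology of `Z`; `HasSlope α t u` means that `α` has the slope `u`
at all places given by the unit `t`. If `α π_w` is `q ^ c` then the word `w` is annihilated by the
cocharacters of a maximal torus of `D`, its letters have the average slopes of their spaces, and the
weight of `π_w`, the length of `w`, is at most `2 c`. -/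
structure Frobenius {N : ℕ} {I : Type} (S : LocalSystems N I) (p : ℕ) where
  q : ℕ
  π : Letter S.labels → Ints
  Λ : Finset Ints
  HasSlope : Ints → (ZMod N)ˣ → ℚ → Prop
  torus : ∀ (c s : ℕ) (w : Fin s → Letter S.labels), ∀ α ∈ Λ, α * ∏ k, π (w k) = (q : Ints) ^ c →
    TorusInv w
  slope : ∀ (c s : ℕ) (w : Fin s → Letter S.labels), ∀ α ∈ Λ, α * ∏ k, π (w k) = (q : Ints) ^ c →
    ∀ t : (ZMod N)ˣ,
      HasSlope α t (c - ∑ k, slope S.labels p (t : ZMod N) (w k).1 / S.labels.dim (w k).1)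
  weight : ∀ (c s : ℕ) (w : Fin s → Letter S.labels), ∀ α ∈ Λ, α * ∏ k, π (w k) = (q : Ints) ^ c →
    s ≤ 2 * c

/-- An eigenvalue of the cohomology of `Z` which has a slope `u t` at the places given by `t`, for
all `t`, has the same integral slope at all places. -/
def IntegralSlopes {N : ℕ} {I : Type} {S : LocalSystems N I} {p : ℕ} (Φ : Frobenius S p) : Prop :=
  ∀ α ∈ Φ.Λ, ∀ u : (ZMod N)ˣ → ℚ, (∀ t, Φ.HasSlope α t (u t)) → ∃ m : ℤ, ∀ t, u t = m

/-- The polynomial `∏ (X - α π_w)`, `α ∈ Λ`. -/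
noncomputable def Frobenius.poly {N : ℕ} {I : Type} {S : LocalSystems N I} {p : ℕ} (Φ : Frobenius S p)
    {s : ℕ} (w : Fin s → Letter S.labels) : Polynomial Ints :=
  ∏ α ∈ Φ.Λ, (Polynomial.X - Polynomial.C (α * ∏ k, Φ.π (w k)))

section

variable {p : ℕ} (hp : p.Prime) {N : ℕ} [NeZero N] (hpN : p.Coprime N) {I : Type} [Fintype I]
  {S : LocalSystems N I} (Φ : Frobenius S p)

include hp hpN

/-- a resonance: the word consists of pairs and full blocks; the weight is at most `2 c` -/
theorem Frobenius.resonance (c s : ℕ) (w : Fin s → Letter S.labels)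
    (h : ∃ α ∈ Φ.Λ, α * ∏ k, Φ.π (w k) = (Φ.q : Ints) ^ c) :
    s ≤ 2 * c ∧ ∃ (l r : ℕ) (μ : Fin l → I)
      (e : (Σ j : Fin l, Fin (S.labels.dim (μ j))) ⊕ (Fin r × Fin 2) ≃ Fin s),
      IsDecomposed w μ e ∧
      (IntegralSlopes Φ → KnownDegree p N →
        ∀ A : ∀ M : ℕ, Multiset (ZMod M) → Prop, Admissible p A → A N (exAll S.labels μ)) := by
  obtain ⟨α, hα, hres⟩ := h
  obtain ⟨l, r, μ, e, h1, h2⟩ := Res.resonance p hp N hpN I S (Φ.HasSlope α) c s w
    (Φ.torus c s w α hα hres) (Φ.slope c s w α hα hres)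
  exact ⟨Φ.weight c s w α hα hres, l, r, μ, e, h1, fun hI => h2 (hI α hα)⟩

end

/-- an algebraic integer different from zero divides an integer different from zero -/
lemma exists_nat (b : Ints) (hb : b ≠ 0) : ∃ n : ℕ, n ≠ 0 ∧ ∃ c : Ints, c * b = (n : Ints) := by
  have h1 : IsAlgebraic ℤ b := (Algebra.IsIntegral.isIntegral b).isAlgebraic
  obtain ⟨r, hr, c, hc⟩ := h1.exists_nonzero_dvd (mem_nonZeroDivisors_of_ne_zero hb)
  refine ⟨r.natAbs, Int.natAbs_ne_zero.mpr hr, ?_⟩
  rcases Int.natAbs_eq r with h | h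
  · refine ⟨c, ?_⟩
    rw [mul_comm, ← hc, h]
    simp
  · refine ⟨-c, ?_⟩
    rw [neg_mul, mul_comm, ← hc, h]
    simp

/-- a polynomial in an operator with an eigenvector -/
lemma aeval_eigen {O V : Type} [CommRing O] [AddCommGroup V] [Module O V] (f : V →ₗ[O] V) (a : O)
    (P : Polynomial O) {x : V} (hx : f x = a • x) : (Polynomial.aeval f P) x = P.eval a • x := by
  by_cases h0 : x = 0
  · rw [h0, map_zero, smul_zero]
  · exact Module.End.aeval_apply_of_hasEigenvector
      ⟨Module.End.mem_eigenspace_iff.mpr hx, h0⟩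

/-- The operator `e` is zero up to a factor: its image has a finite exponent. -/
def Bounded {V : Type} [AddCommGroup V] [Module Ints V] (e : V →ₗ[Ints] V) : Prop :=
  ∃ b : Ints, b ≠ 0 ∧ ∀ x, b • e x = 0

/-- without a resonance, a part on which the Frobenius acts as `q ^ c` has a finite exponent -/
lemma Frobenius.bounded_of_no_resonance {N : ℕ} {I : Type} {S : LocalSystems N I} {p : ℕ}
    (Φ : Frobenius S p) {V : Type} [AddCommGroup V] [Module Ints V] (e frob : V →ₗ[Ints] V)
    (c : ℕ) (hs : ∀ x, frob (e x) = (Φ.q : Ints) ^ c • e x) {s : ℕ} (w : Fin s → Letter S.labels)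
    (hn : ∃ (m : ℕ) (b : Ints), b ≠ 0 ∧ ∀ x, b • Polynomial.aeval frob (Φ.poly w ^ m) (e x) = 0)
    (h : ¬ ∃ α ∈ Φ.Λ, α * ∏ k, Φ.π (w k) = (Φ.q : Ints) ^ c) : Bounded e := by
  push Not at h
  obtain ⟨m, b, hb, hx⟩ := hn
  refine ⟨b * (Φ.poly w ^ m).eval ((Φ.q : Ints) ^ c), mul_ne_zero hb ?_, fun x => ?_⟩
  · unfold Frobenius.poly
    rw [Polynomial.eval_pow, Polynomial.eval_prod]
    refine pow_ne_zero _ (Finset.prod_ne_zero_iff.mpr fun α hα => ?_)
    rw [Polynomial.eval_sub, Polynomial.eval_X, Polynomial.eval_C, sub_ne_zero]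
    exact (h α hα).symm
  · rw [mul_smul, ← aeval_eigen frob _ _ (hs x)]
    exact hx x

/-- a group which is a finite sum of bounded parts has a finite exponent -/
lemma exponent_of_bounded {H V J : Type} [AddCommGroup H] [AddCommGroup V] [Module Ints V]
    [Fintype J] (ι : H →+ V) (hι : Function.Injective ι) (e : J → V →ₗ[Ints] V)
    (hsum : ∃ a : Ints, a ≠ 0 ∧ ∀ x, ∑ j, e j x = a • x) (he : ∀ j, Bounded (e j)) :
    ∃ n : ℕ, n ≠ 0 ∧ ∀ x : H, n • x = 0 := by
  classical
  obtain ⟨a, ha, hs⟩ := hsum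
  choose b hb hx using he
  obtain ⟨n, hn, c, hc⟩ := exists_nat ((∏ j, b j) * a)
    (mul_ne_zero (Finset.prod_ne_zero_iff.mpr fun j _ => hb j) ha)
  refine ⟨n, hn, fun x => hι ?_⟩
  rw [map_nsmul, map_zero, ← Nat.cast_smul_eq_nsmul Ints, ← hc, mul_smul, mul_smul, ← hs,
    Finset.smul_sum]
  rw [Finset.sum_eq_zero, smul_zero]
  intro j hj
  rw [← Finset.mul_prod_erase _ _ hj, mul_comm, mul_smul, hx, smul_zero]

end Pool.Agent.Q59.TC.Fro
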