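import Mathlib

/-!
# Lefschetz modules and products with the projective line

A Lefschetz module is a graded space `M` (the classes of cycles on a variety of dimension `dim`, with
complex coefficients) with the Lefschetz operator `L` and the hermitian form `B x y`, the degree of
`x̄ · y`. If the form `(-1) ^ c B (x, L ^ (dim - 2 c) x)` is positive definite on the primitive elements
of all degrees `c ≤ dim / 2`, the same is true for the Lefschetz module of the product with a projective
line.
-/

namespace Pool.Agent.Q59.TC.HR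

open ComplexConjugate

/-- The space `M` of cycles on a variety of dimension `dim`, graded by the codimension, with the
Lefschetz operator `L` and the hermitian form `B x y`, the degree of `x̄ · y`. -/
structure Lef where
  dim : ℕ
  M : Type
  [add : AddCommGroup M]
  [mod : Module ℂ M]
  G : ℕ → Submodule ℂ M
  L : M →ₗ[ℂ] M
  B : M →ₗ⋆[ℂ] M →ₗ[ℂ] ℂ
  L_mem : ∀ c x, x ∈ G c → L x ∈ G (c + 1)
  adj : ∀ x y, B (L x) y = B x (L y)
  herm : ∀ x y, B y x = conj (B x y)

attribute [instance] Lef.add Lef.mod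

/-- **The positivity on the primitive elements**, in all degrees `c ≤ dim / 2`. -/
def Lef.Good (X : Lef) : Prop :=
  ∀ c e : ℕ, 2 * c + e = X.dim → ∀ x ∈ X.G c, (X.L ^ (e + 1)) x = 0 → x ≠ 0 →
    0 < (-1) ^ c * (X.B x ((X.L ^ e) x)).re

lemma Lef.adj_pow (X : Lef) (n : ℕ) (x y : X.M) : X.B ((X.L ^ n) x) y = X.B x ((X.L ^ n) y) := by
  induction n generalizing y with
  | zero => rfl
  | succ n ih =>
    rw [pow_succ' X.L n, Module.End.mul_apply, X.adj, ih, ← Module.End.mul_apply, ← pow_succ,
      ← pow_succ']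

lemma Lef.re_comm (X : Lef) (x y : X.M) : (X.B y x).re = (X.B x y).re := by
  rw [X.herm x y, Complex.conj_re]

/-- the pieces of the product with a projective line -/
def Lef.lineG (X : Lef) : ℕ → Submodule ℂ (X.M × X.M)
  | 0 => (X.G 0).prod ⊥
  | c + 1 => (X.G (c + 1)).prod (X.G c)

/-- the Lefschetz operator of the product with a projective line -/
noncomputable def Lef.lineL (X : Lef) : X.M × X.M →ₗ[ℂ] X.M × X.M :=
  (X.L ∘ₗ LinearMap.fst ℂ X.M X.M).prod
    (LinearMap.fst ℂ X.M X.M + X.L ∘ₗ LinearMap.snd ℂ X.M X.M)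

/-- the powers of the Lefschetz operator of the product with a projective line -/
lemma Lef.lineL_pow (X : Lef) (n : ℕ) (a b : X.M) :
    (X.lineL ^ n) (a, b) = ((X.L ^ n) a, (n : ℂ) • (X.L ^ (n - 1)) a + (X.L ^ n) b) := by
  induction n with
  | zero => simp [Module.End.one_apply]
  | succ n ih =>
    rw [pow_succ', Module.End.mul_apply, ih]
    change (X.L ((X.L ^ n) a), (X.L ^ n) a + X.L ((n : ℂ) • (X.L ^ (n - 1)) a + (X.L ^ n) b)) = _
    rw [map_add, map_smul, ← Module.End.mul_apply, ← pow_succ', ← Module.End.mul_apply, ← pow_succ',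
      Nat.add_sub_cancel]
    congr 1
    cases n with
    | zero => simp
    | succ n =>
      rw [Nat.add_sub_cancel, ← Module.End.mul_apply (f := X.L), ← pow_succ', ← add_assoc]
      congr 1
      push_cast
      module

/-- The Lefschetz module of the product with a projective line: the elements are `a + b h`, where `h` is
the class of a point of the line. -/
noncomputable def Lef.line (X : Lef) : Lef where
  dim := X.dim + 1
  M := X.M × X.M
  G := X.lineG
  L := X.lineL
  B := LinearMap.mk₂'ₛₗ (starRingEnd ℂ) (RingHom.id ℂ)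
    (fun x y => X.B x.1 y.2 + X.B x.2 y.1)
    (fun x y z => by simp only [Prod.fst_add, Prod.snd_add, map_add, LinearMap.add_apply]; ring)
    (fun a x y => by
      simp only [Prod.smul_fst, Prod.smul_snd, LinearMap.map_smulₛₗ, LinearMap.smul_apply, smul_eq_mul]
      ring)
    (fun x y z => by simp only [Prod.fst_add, Prod.snd_add, map_add]; ring)
    (fun a x y => by
      simp only [Prod.smul_fst, Prod.smul_snd, map_smul, smul_eq_mul, RingHom.id_apply]
      ring)
  L_mem := by
    intro c x hx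
    cases c with
    | zero =>
      obtain ⟨h1, h2⟩ := hx
      refine ⟨X.L_mem 0 _ h1, ?_⟩
      have h3 : x.2 = 0 := (Submodule.mem_bot ℂ).mp h2
      change x.1 + X.L x.2 ∈ X.G 0
      rw [h3, map_zero, add_zero]
      exact h1
    | succ c =>
      obtain ⟨h1, h2⟩ := hx
      exact ⟨X.L_mem _ _ h1, (X.G (c + 1)).add_mem h1 (X.L_mem _ _ h2)⟩
  adj := by
    intro x y
    change X.B (X.L x.1) y.2 + X.B (x.1 + X.L x.2) y.1 = X.B x.1 (y.1 + X.L y.2) + X.B x.2 (X.L y.1)
    rw [map_add, LinearMap.add_apply, map_add, X.adj, X.adj]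
    ring
  herm := by
    intro x y
    change X.B y.1 x.2 + X.B y.2 x.1 = conj (X.B x.1 y.2 + X.B x.2 y.1)
    rw [map_add, ← X.herm, ← X.herm]
    ring

lemma Lef.line_pow (X : Lef) (n : ℕ) (a b : X.M) :
    (X.line.L ^ n) ((a, b) : X.M × X.M) =
      ((X.L ^ n) a, (n : ℂ) • (X.L ^ (n - 1)) a + (X.L ^ n) b) :=
  X.lineL_pow n a b

/-- **The product with a projective line.** -/
theorem Lef.line_good (X : Lef) (h : X.Good) : X.line.Good := by
  rintro c e hce ⟨a, b⟩ hx hprim hne
  -- the primitive elements `p` and `b`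
  rw [X.line_pow] at hprim
  have h1 : (X.L ^ (e + 1)) a = 0 := congrArg Prod.fst hprim
  have h2 : ((e + 1 : ℕ) : ℂ) • (X.L ^ e) a + (X.L ^ (e + 1)) b = 0 := congrArg Prod.snd hprim
  have hdim : 2 * c + e = X.dim + 1 := hce
  set k : ℂ := ((e + 1 : ℕ) : ℂ) with hk
  have hk0 : k ≠ 0 := by rw [hk]; exact Nat.cast_ne_zero.mpr (Nat.succ_ne_zero e)
  obtain ⟨p, hp⟩ : ∃ p, p = k • a + X.L b := ⟨_, rfl⟩
  have hpprim : (X.L ^ e) p = 0 := by
    rw [hp, map_add, map_smul, ← Module.End.mul_apply, ← pow_succ]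
    exact h2
  have hbprim : (X.L ^ (e + 2)) b = 0 := by
    have h3 : (X.L ^ (e + 1)) b = -(k • (X.L ^ e) a) := (neg_eq_of_add_eq_zero_right h2).symm
    rw [pow_succ', Module.End.mul_apply, h3, map_neg, map_smul, ← Module.End.mul_apply, ← pow_succ',
      h1, smul_zero, neg_zero]
  have hpb : X.B p ((X.L ^ e) b) = 0 := by
    rw [← X.adj_pow, hpprim, map_zero, LinearMap.zero_apply]
  have hbp : X.B b ((X.L ^ e) p) = 0 := by rw [hpprim, map_zero]
  have ha : a = k⁻¹ • (p - X.L b) := by
    rw [hp, add_sub_cancel_right, smul_smul, inv_mul_cancel₀ hk0, one_smul]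
  -- membership
  have hpG : p ∈ X.G c := by
    rw [hp]
    cases c with
    | zero =>
      have h3 : b = 0 := (Submodule.mem_bot ℂ).mp hx.2
      rw [h3, map_zero, add_zero]
      exact (X.G 0).smul_mem _ hx.1
    | succ c => exact (X.G (c + 1)).add_mem ((X.G (c + 1)).smul_mem _ hx.1) (X.L_mem c b hx.2)
  -- the second summand
  have hbpos : b ≠ 0 → 0 < (-1) ^ (c + 1) * (X.B b ((X.L ^ (e + 1)) b)).re := by
    intro hb
    cases c with
    | zero => exact absurd ((Submodule.mem_bot ℂ).mp hx.2) hb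
    | succ c =>
      have h3 := h c (e + 1) (by omega) b hx.2 hbprim hb
      calc 0 < (-1) ^ c * (X.B b ((X.L ^ (e + 1)) b)).re := h3
        _ = _ := by rw [pow_succ, pow_succ]; ring
  -- the form
  have hform : X.line.B ((a, b) : X.M × X.M) ((X.line.L ^ e) ((a, b) : X.M × X.M)) =
      X.B a ((e : ℂ) • (X.L ^ (e - 1)) a + (X.L ^ e) b) + X.B b ((X.L ^ e) a) := by
    rw [X.line_pow]
    rfl
  rcases Nat.eq_zero_or_pos e with he | he
  · -- the middle degree
    subst he
    have hp0 : p = 0 := by simpa [Module.End.one_apply] using hpprim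
    have hk1 : k = 1 := by rw [hk]; simp
    have ha' : a = -X.L b := by rw [ha, hp0, hk1, inv_one, one_smul, zero_sub]
    have hb : b ≠ 0 := by
      intro hb
      refine hne ?_
      rw [ha', hb, map_zero, neg_zero]
      rfl
    have h3 := hbpos hb
    rw [hform, ha']
    simp only [Nat.cast_zero, zero_smul, zero_add, pow_zero, Module.End.one_apply, map_neg,
      LinearMap.neg_apply, X.adj, Complex.add_re, Complex.neg_re]
    rw [zero_add, pow_one] at h3
    rw [pow_succ] at h3
    linarith
  · obtain ⟨e, rfl⟩ : ∃ e', e = e' + 1 := ⟨e - 1, by omega⟩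
    have hppos : p ≠ 0 → 0 < (-1) ^ c * (X.B p ((X.L ^ e) p)).re :=
      fun hp0 => h c e (by omega) p hpG hpprim hp0
    -- the identity
    have hid : k ^ 2 * (X.B a (((e + 1 : ℕ) : ℂ) • (X.L ^ e) a + (X.L ^ (e + 1)) b) +
        X.B b ((X.L ^ (e + 1)) a)) =
        (e + 1) * X.B p ((X.L ^ e) p) - (k + 1) * X.B b ((X.L ^ (e + 2)) b) := by
      have hkr : conj k = k := by rw [hk]; exact map_natCast _ _
      have e1 : X.B (X.L b) ((X.L ^ e) p) = 0 := by
        rw [X.adj, ← Module.End.mul_apply, ← pow_succ']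
        exact hbp
      have e2 : X.B p ((X.L ^ e) (X.L b)) = 0 := by
        rw [← Module.End.mul_apply, ← pow_succ]
        exact hpb
      have e3 : X.B (X.L b) ((X.L ^ e) (X.L b)) = X.B b ((X.L ^ (e + 2)) b) := by
        rw [X.adj, ← Module.End.mul_apply, ← Module.End.mul_apply, ← pow_succ', ← pow_succ]
      have e4 : X.B (X.L b) ((X.L ^ (e + 1)) b) = X.B b ((X.L ^ (e + 2)) b) := by
        rw [X.adj, ← Module.End.mul_apply, ← pow_succ']
      have e5 : X.B b ((X.L ^ (e + 1)) (X.L b)) = X.B b ((X.L ^ (e + 2)) b) := by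
        rw [← Module.End.mul_apply, ← pow_succ]
      rw [ha]
      simp only [map_add, map_sub, map_smul, LinearMap.map_smulₛₗ, LinearMap.sub_apply,
        LinearMap.smul_apply, smul_eq_mul, map_inv₀, hkr, e1, e2, e3, e4, e5, hpb, hbp]
      have hk' : ((e + 1 : ℕ) : ℂ) = k - 1 := by rw [hk]; push_cast; ring
      have hk'' : ((e : ℂ) + 1) = k - 1 := by rw [← hk']; push_cast; ring
      rw [hk', hk'']
      field_simp
      ring
    have hre := congrArg Complex.re hid
    have hk2 : k = (((e : ℝ) + 2 : ℝ) : ℂ) := by rw [hk]; push_cast; ring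
    have hf2 := hform
    rw [Nat.add_sub_cancel] at hf2
    rw [hf2]
    set w := X.B a (((e + 1 : ℕ) : ℂ) • (X.L ^ e) a + (X.L ^ (e + 1)) b) +
        X.B b ((X.L ^ (e + 1)) a) with hw
    have hre2 : ((e : ℝ) + 2) ^ 2 * w.re =
        (e + 1) * (X.B p ((X.L ^ e) p)).re - (e + 3) * (X.B b ((X.L ^ (e + 2)) b)).re := by
      have l1 : (k ^ 2 * w).re = ((e : ℝ) + 2) ^ 2 * w.re := by
        rw [hk2, ← Complex.ofReal_pow, Complex.re_ofReal_mul]
      have l2 : (((e : ℂ) + 1) * X.B p ((X.L ^ e) p) - (k + 1) * X.B b ((X.L ^ (e + 2)) b)).re =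
          (e + 1) * (X.B p ((X.L ^ e) p)).re - (e + 3) * (X.B b ((X.L ^ (e + 2)) b)).re := by
        have m1 : ((e : ℂ) + 1) = (((e : ℝ) + 1 : ℝ) : ℂ) := by push_cast; ring
        have m2 : k + 1 = (((e : ℝ) + 3 : ℝ) : ℂ) := by rw [hk2]; push_cast; ring
        rw [m1, m2, Complex.sub_re, Complex.re_ofReal_mul, Complex.re_ofReal_mul]
      rw [← l1, ← l2]
      exact hre
    have hsq : 0 < ((e : ℝ) + 2) ^ 2 := by positivity
    have hmain : 0 < ((e : ℝ) + 2) ^ 2 * ((-1) ^ c * w.re) := by
      have t1 : ((e : ℝ) + 2) ^ 2 * ((-1) ^ c * w.re) =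
          (e + 1) * ((-1) ^ c * (X.B p ((X.L ^ e) p)).re) +
            (e + 3) * ((-1) ^ (c + 1) * (X.B b ((X.L ^ (e + 2)) b)).re) := by
        calc ((e : ℝ) + 2) ^ 2 * ((-1) ^ c * w.re) = (-1) ^ c * (((e : ℝ) + 2) ^ 2 * w.re) := by ring
          _ = _ := by rw [hre2, pow_succ]; ring
      rw [t1]
      by_cases hb : b = 0
      · have hp0 : p ≠ 0 := by
          intro hp0
          refine hne ?_
          rw [ha, hp0, hb, map_zero, sub_zero, smul_zero]
          rfl
        have h3 := hppos hp0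
        rw [hb]
        simp only [map_zero, Complex.zero_re, mul_zero, add_zero]
        positivity
      · have h3 := hbpos hb
        rcases eq_or_ne p 0 with hp0 | hp0
        · rw [hp0]
          simp only [map_zero, Complex.zero_re, mul_zero, zero_add]
          positivity
        · have h4 := hppos hp0
          positivity
    exact (mul_pos_iff_of_pos_left hsq).mp hmain

/-- the product with `m` projective lines -/
noncomputable def Lef.lines (X : Lef) : ℕ → Lef
  | 0 => X
  | m + 1 => (X.lines m).line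

theorem Lef.lines_good (X : Lef) (h : X.Good) (m : ℕ) : (X.lines m).Good := by
  induction m with
  | zero => exact h
  | succ m ih => exact (X.lines m).line_good ih

end Pool.Agent.Q59.TC.HR
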