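import Pool.Agent.Q59.TC.Words
import Pool.Agent.Q59.VZ.Main
import Pool.Agent.Q59.EC.TateMain

/-!
# Slopes of the determinants in characteristic `p`
-/

namespace Pool.Agent.Q59.TC

open Finset Pool.Agent.Q59.GC Pool.Agent.Q59.EC
open Pool.Agent.H916T (IsTate)

variable {N : ℕ}

/-- The sum of the `⟨t a⟩ - 1 / 2`, `a` in `u`, where `⟨a⟩` is the representative in `[0, 1)` of
`a / N`. -/
noncomputable def offset (t : ZMod N) (u : Multiset (ZMod N)) : ℚ :=
  (u.map fun a => ((t * a).val : ℚ) / N - 1 / 2).sum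

/-- The average over the powers `p ^ j` of the sums of the `⟨p ^ j t a⟩ - 1 / 2`, `a` in `u`: the
slope of the Frobenius on the line of the Fermat variety with the character `u`, minus half the
weight, at the place given by `t`. -/
noncomputable def excess (p : ℕ) (t : ZMod N) (u : Multiset (ZMod N)) : ℚ :=
  (∑ j ∈ range (orderOf (p : ZMod N)), offset ((p : ZMod N) ^ j * t) u) /
    orderOf (p : ZMod N)

variable [NeZero N]

lemma offset_neg' {t : ZMod N} (ht : IsUnit t) (u : Multiset (ZMod N)) (hu : (0 : ZMod N) ∉ u) :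
    offset (-t) u = - offset t u := by
  have hN : (N : ℚ) ≠ 0 := by exact_mod_cast NeZero.ne N
  unfold offset
  induction u using Multiset.induction_on with
  | empty => simp
  | cons a u ih =>
    have ha : a ≠ 0 := fun h => hu (h ▸ Multiset.mem_cons_self _ _)
    rw [Multiset.map_cons, Multiset.sum_cons, Multiset.map_cons, Multiset.sum_cons,
      ih fun h => hu (Multiset.mem_cons_of_mem h)]
    have h1 : (((-t * a).val : ℕ) : ℚ) = N - ((t * a).val : ℚ) := by
      have h2 := val_neg_mul t a fun h' => ha (ht.mul_right_eq_zero.mp h')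
      rw [mul_neg, ← neg_mul] at h2
      exact_mod_cast congrArg (Int.cast : ℤ → ℚ) h2
    rw [h1]
    field_simp
    ring

omit [NeZero N] in
lemma offset_map_neg (t : ZMod N) (u : Multiset (ZMod N)) :
    offset t (u.map fun a => -a) = offset (-t) u := by
  unfold offset
  rw [Multiset.map_map]
  refine congrArg Multiset.sum (Multiset.map_congr rfl fun a _ => ?_)
  rw [Function.comp_apply, mul_neg, neg_mul]

lemma isUnit_pow {p : ℕ} (hp : p.Coprime N) (j : ℕ) (t : (ZMod N)ˣ) :
    IsUnit ((p : ZMod N) ^ j * (t : ZMod N)) := by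
  obtain ⟨u, hu⟩ := pow_unit hp j t
  exact hu ▸ u.isUnit

lemma excess_neg {p : ℕ} (hp : p.Coprime N) (t : (ZMod N)ˣ) (u : Multiset (ZMod N))
    (hu : (0 : ZMod N) ∉ u) :
    excess p (((-t : (ZMod N)ˣ) : ZMod N)) u = - excess p (t : ZMod N) u := by
  unfold excess
  rw [← neg_div, ← sum_neg_distrib]
  congr 1
  refine sum_congr rfl fun j _ => ?_
  rw [Units.val_neg, mul_neg, offset_neg' (isUnit_pow hp j t) u hu]

lemma excess_star {p : ℕ} (hp : p.Coprime N) (t : (ZMod N)ˣ) (u : Multiset (ZMod N))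
    (hu : (0 : ZMod N) ∉ u) :
    excess p (t : ZMod N) (u.map fun a => -a) = - excess p (t : ZMod N) u := by
  unfold excess
  rw [← neg_div, ← sum_neg_distrib]
  congr 1
  refine sum_congr rfl fun j _ => ?_
  rw [offset_map_neg, offset_neg' (isUnit_pow hp j t) u hu]

omit [NeZero N] in
lemma offset_exAll {I : Type} {Λ : Labels N I} {L : Type} [Fintype L] (t : ZMod N) (μ : L → I) :
    offset t (exAll Λ μ) = ∑ j, offset t (Λ.ex (μ j)) := by
  unfold exAll
  let φ : Multiset (ZMod N) →+ ℚ :=
    ⟨⟨fun s => offset t s, by simp [offset]⟩, fun s t' => by simp [offset]⟩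
  exact map_sum φ (fun j => Λ.ex (μ j)) Finset.univ

omit [NeZero N] in
lemma excess_exAll {I : Type} {Λ : Labels N I} {L : Type} [Fintype L] (p : ℕ) (t : ZMod N)
    (μ : L → I) : excess p t (exAll Λ μ) = ∑ j, excess p t (Λ.ex (μ j)) := by
  unfold excess
  rw [← sum_div, sum_comm]
  congr 1
  exact sum_congr rfl fun j _ => offset_exAll _ μ

omit [NeZero N] in
lemma excess_zero (p : ℕ) (t : ZMod N) : excess p t (0 : Multiset (ZMod N)) = 0 := by
  simp [excess, offset]

variable {I : Type} {Λ : Labels N I}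

omit [NeZero N] in
variable (Λ) in
/-- The slope of the Frobenius on the determinant of `V_i` at the place given by `t`: the average over
the powers `p ^ j` of the numbers `hodge (p ^ j t) i`. -/
noncomputable def slope (p : ℕ) (t : ZMod N) (i : I) : ℚ :=
  (∑ j ∈ range (orderOf (p : ZMod N)), hodge Λ ((p : ZMod N) ^ j * t) i) /
    orderOf (p : ZMod N)

lemma hodge_offset (t : ZMod N) (i : I) :
    hodge Λ t i = offset t (Λ.ex i) + (Λ.dim i : ℚ) / 2 := by
  have h1 : ∀ u : Multiset (ZMod N), offset t u =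
      ((u.map fun a => ((t * a).val : ℚ)).sum) / N - (Multiset.card u : ℚ) / 2 := by
    intro u
    unfold offset
    induction u using Multiset.induction_on with
    | empty => simp
    | cons a u ih =>
      rw [Multiset.map_cons, Multiset.sum_cons, ih, Multiset.map_cons, Multiset.sum_cons,
        Multiset.card_cons]
      push_cast
      ring
  have h2 : (Λ.dim i : ℚ) = Multiset.card (Λ.ex i) + 2 * Λ.half i := by
    exact_mod_cast Λ.dim_eq i
  unfold hodge
  rw [h1, h2]
  ring

lemma order_pos {p : ℕ} (hp : p.Coprime N) : 0 < orderOf (p : ZMod N) := by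
  have h1 : IsUnit (p : ZMod N) := Pool.Agent.H916T.isUnit_p hp
  rw [orderOf_pos_iff]
  obtain ⟨u, hu⟩ := h1
  rw [← hu, Units.isOfFinOrder_val]
  exact isOfFinOrder_of_finite u

lemma slope_eq {p : ℕ} (hp : p.Coprime N) (t : ZMod N) (i : I) :
    slope Λ p t i = excess p t (Λ.ex i) + (Λ.dim i : ℚ) / 2 := by
  have h1 : (orderOf (p : ZMod N) : ℚ) ≠ 0 := by exact_mod_cast (order_pos hp).ne'
  unfold slope excess
  rw [sum_congr rfl fun j _ => hodge_offset _ i, sum_add_distrib, sum_const, card_range,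
    nsmul_eq_mul, add_div, mul_div_cancel_left₀ _ h1]

/-- the sum of the mean slopes of the letters of a word -/
lemma sum_slope {κ : Type} [Fintype κ] {p : ℕ} (hp : p.Coprime N) (t : ZMod N)
    (w : κ → Letter Λ) : ∑ k, slope Λ p t (w k).1 / Λ.dim (w k).1 =
      (Fintype.card κ : ℚ) / 2 + ∑ k, excess p t (Λ.ex (w k).1) / Λ.dim (w k).1 := by
  have h3 : ∀ k, slope Λ p t (w k).1 / Λ.dim (w k).1 =
      1 / 2 + excess p t (Λ.ex (w k).1) / Λ.dim (w k).1 := by
    intro k
    have hd : (Λ.dim (w k).1 : ℚ) ≠ 0 := by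
      have : 0 < Λ.dim (w k).1 := (Nat.zero_le _).trans_lt (w k).2.2
      exact_mod_cast this.ne'
    rw [slope_eq hp]
    field_simp
    ring
  rw [sum_congr rfl fun k _ => h3 k, sum_add_distrib, sum_const, card_univ, nsmul_eq_mul]
  ring

/-- a family with vanishing excesses and an even number of exponents gives a Tate character -/
lemma isTate_of_excess {p : ℕ} (hp : p.Coprime N) {u : Multiset (ZMod N)} (h0 : (0 : ZMod N) ∉ u)
    (heven : Even (Multiset.card u)) (hsum : u.sum = 0)
    (h : ∀ t : (ZMod N)ˣ, excess p (t : ZMod N) u = 0) : IsTate p N u := by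
  have hN : (N : ℚ) ≠ 0 := by exact_mod_cast NeZero.ne N
  have hf : (orderOf (p : ZMod N) : ℚ) ≠ 0 := by exact_mod_cast (order_pos hp).ne'
  refine ⟨h0, heven, hsum, fun t => ?_⟩
  have h1 : ∀ (t : ZMod N) (u : Multiset (ZMod N)), offset t u * (2 * N) =
      2 * (((u.map fun a => (t * a).val).sum : ℕ) : ℚ) - N * Multiset.card u := by
    intro t u
    unfold offset
    induction u using Multiset.induction_on with
    | empty => simp
    | cons a u ih =>
      rw [Multiset.map_cons, Multiset.sum_cons, add_mul, ih, Multiset.map_cons,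
        Multiset.sum_cons, Multiset.card_cons]
      push_cast
      field_simp
      ring
  have h2 := h t
  unfold excess at h2
  rw [div_eq_zero_iff] at h2
  have h3 := h2.resolve_right hf
  have h4 : (∑ j ∈ range (orderOf (p : ZMod N)),
      offset ((p : ZMod N) ^ j * (t : ZMod N)) u) * (2 * N) = 0 := by
    rw [h3, zero_mul]
  rw [sum_mul, sum_congr rfl fun j _ => h1 ((p : ZMod N) ^ j * (t : ZMod N)) u,
    sum_sub_distrib, sum_const, card_range, nsmul_eq_mul, ← mul_sum] at h4
  have h5 : (2 : ℚ) * ((∑ j ∈ range (orderOf (p : ZMod N)),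
      (u.map fun a => ((p : ZMod N) ^ j * ((t : ZMod N) * a)).val).sum : ℕ) : ℚ) =
      ((orderOf (p : ZMod N) * (N * Multiset.card u) : ℕ) : ℚ) := by
    have e1 : ∀ j, (u.map fun a => ((p : ZMod N) ^ j * ((t : ZMod N) * a)).val) =
        u.map fun a => ((p : ZMod N) ^ j * (t : ZMod N) * a).val := fun j =>
      Multiset.map_congr rfl fun a _ => by rw [mul_assoc]
    simp only [e1]
    push_cast at h4 ⊢
    linarith
  exact_mod_cast h5

omit [NeZero N] in
/-- the parity of the number of the exponents -/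
lemma even_exAll' {l s : ℕ} (μ : Fin l → I) (h : ∃ q, ∑ j, Λ.dim (μ j) + q * 2 = s)
    (hs : Even s) : Even (Multiset.card (exAll Λ μ)) := by
  obtain ⟨q, hq⟩ := h
  rw [exAll_card]
  have h3 : ∀ j, Multiset.card (Λ.ex (μ j)) ≡ Λ.dim (μ j) [MOD 2] := by
    intro j
    have h4 := Λ.dim_eq (μ j)
    rw [Nat.ModEq]
    omega
  have h5 : ∀ S : Finset (Fin l), ∑ j ∈ S, Multiset.card (Λ.ex (μ j)) ≡ ∑ j ∈ S, Λ.dim (μ j)
      [MOD 2] := by
    intro S
    induction S using Finset.induction_on with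
    | empty => rfl
    | insert a S ha ih =>
      rw [sum_insert ha, sum_insert ha]
      exact (h3 a).add ih
  have h6 := h5 univ
  rw [Nat.even_iff] at hs ⊢
  rw [Nat.ModEq] at h6
  omega

/-- the consequences of integrality: the excesses vanish, and the number of factors is even -/
lemma excess_eq_zero {W : Type} [AddCommGroup W] [Module ℂ W] {p : ℕ} (hp : p.Coprime N)
    {F : (ZMod N)ˣ → ℚ → Submodule ℂ W}
    (hF : ∀ (q : (ZMod N)ˣ → ℚ) (z : W), z ≠ 0 → (∀ t, z ∈ F t (q t)) → ∃ m : ℤ, ∀ t, q t = m)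
    {c : ℤ} {s : ℕ} {u : Multiset (ZMod N)} (hu : (0 : ZMod N) ∉ u) {z : W} (hz0 : z ≠ 0)
    (hz : ∀ t : (ZMod N)ˣ, z ∈ F t (c - s / 2 - excess p (t : ZMod N) u)) :
    (∀ t : (ZMod N)ˣ, excess p (t : ZMod N) u = 0) ∧ Even s := by
  obtain ⟨m, hm⟩ := hF (fun t => c - s / 2 - excess p (t : ZMod N) u) z hz0 hz
  have h1 : ∀ t : (ZMod N)ˣ, excess p (t : ZMod N) u = 0 := by
    intro t
    have e1 := hm t
    have e2 := hm (-t)
    rw [excess_neg hp t u hu] at e2
    linarith
  refine ⟨h1, ?_⟩
  have h2 := hm 1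
  rw [h1 1, sub_zero] at h2
  have h3 : (s : ℚ) = 2 * (c - m) := by linarith
  have h4 : (s : ℤ) = 2 * (c - m) := by exact_mod_cast h3
  rw [Nat.even_iff]
  omega

end Pool.Agent.Q59.TC
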