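import Pool.Agent.Q59.TC.Main

/-!
# Local systems on pointed curves in positive characteristic: Tate tensors with values

A copy of the definitions and of the theorem of `MP_0f183b_ag.RandomCoversTimesVarieties`, for the use in
other files.
-/

namespace Pool.Agent.Q59.TC.Sys

open Pool.Agent.Q59.GC Pool.Agent.Q59.EC Pool.Agent.Q59.TC
open Pool.Agent.H916T (SurfaceTate Standard IsTate)
open Pool.Agent.Y2.Cv (SurfaceOrCurveProduct)

/-- The numerical invariants of a finite family of local systems `L_i` of finite monodromy on pointed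
curves of genus `genus i`, closed under duality: `star i` is the dual local system, `rank i` is the
rank, `inv i` the dimension of the space of the global sections, `ex i` the multiset of the nonzero
local exponents, residues modulo `N` with sum zero, and `dim i` the dimension of the first cohomology
group `V_i`. -/
structure LocalSystems (N : ℕ) (I : Type) where
  star : I → I
  star_star : ∀ i, star (star i) = i
  genus : I → ℕ
  genus_star : ∀ i, genus (star i) = genus i
  rank : I → ℕ
  rank_star : ∀ i, rank (star i) = rank i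
  inv : I → ℕ
  inv_star : ∀ i, inv (star i) = inv i
  ex : I → Multiset (ZMod N)
  ex_ne : ∀ i, (0 : ZMod N) ∉ ex i
  ex_sum : ∀ i, (ex i).sum = 0
  ex_star : ∀ i, ex (star i) = (ex i).map fun a => -a
  dim : I → ℕ
  dim_eq : ∀ i, (dim i : ℤ) =
    Multiset.card (ex i) + 2 * (((genus i : ℤ) - 1) * rank i + inv i)
  even_dim : ∀ i, star i = i → Even (dim i)

/-- The numerical invariants of the spaces `V_i = H ^ 1 (L_i)`. -/
def LocalSystems.labels {N : ℕ} {I : Type} (S : LocalSystems N I) : Labels N I where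
  star := S.star
  star_star := S.star_star
  orth _ := false
  orth_star _ h := absurd h (by decide)
  dim := S.dim
  dim_star i := by
    have h1 := S.dim_eq i
    have h2 := S.dim_eq (S.star i)
    rw [S.genus_star, S.rank_star, S.inv_star, S.ex_star, Multiset.card_map, ← h1] at h2
    exact_mod_cast h2
  ex := S.ex
  half i := ((S.genus i : ℤ) - 1) * S.rank i + S.inv i
  dim_eq := S.dim_eq
  ex_ne := S.ex_ne
  ex_sum := S.ex_sum
  ex_star := S.ex_star

/-- A tensor with values in `W`, given by its values on the words in the eigenvectors of the Frobenius,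
is a Tate tensor if it is supported on words annihilated by the cocharacters of a maximal torus of
`D`, and if for every unit `t` the values have the right slope: on these words the slope of a letter of
`V_i` can be replaced by its average `slope i / dim i`. -/
structure IsTateTensor {N : ℕ} {I : Type} {S : LocalSystems N I} (p : ℕ) {W : Type}
    [AddCommGroup W] [Module ℂ W] (F : (ZMod N)ˣ → ℚ → Submodule ℂ W) (c : ℤ) {s : ℕ}
    (x : (Fin s → Letter S.labels) → W) : Prop where
  torus : ∀ w, x w ≠ 0 → TorusInv w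
  type : ∀ (t : (ZMod N)ˣ) (w : Fin s → Letter S.labels),
    x w ∈ F t (c - ∑ k, slope S.labels p (t : ZMod N) (w k).1 / S.labels.dim (w k).1)

/-- A nonzero element of `W` which has a pure slope `u t` at the places given by `t`, for all `t`, has
the same integral slope at all places. -/
def Integral {N : ℕ} {W : Type} [AddCommGroup W] [Module ℂ W]
    (F : (ZMod N)ˣ → ℚ → Submodule ℂ W) : Prop :=
  ∀ (u : (ZMod N)ˣ → ℚ) (z : W), z ≠ 0 → (∀ t, z ∈ F t (u t)) → ∃ m : ℤ, ∀ t, u t = m

/-- Membership in the family of Hodge characters generated by the pairs, the standard characters, the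
characters with four entries and the curve products, in the degree `m` if `m` is even and in the degree
`2 * m` if `m` is odd; their lines are algebraic in characteristic zero. -/
def AlgebraicLine (m : ℕ) (s : Multiset (ZMod m)) : Prop :=
  (Even m → Pool.Agent.H916R2.Generated m (SurfaceOrCurveProduct m) s) ∧
    (Odd m → Pool.Agent.H916R2.Generated (2 * m) (SurfaceOrCurveProduct (2 * m))
      (s.map fun a => ((2 * a.val : ℕ) : ZMod (2 * m))))

/-- The closure properties of the families of the characters of algebraic classes on Fermat varieties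
in characteristic `p`. -/
structure Admissible (p : ℕ) (A : ∀ M : ℕ, Multiset (ZMod M) → Prop) : Prop where
  /-- pairs -/
  pair : ∀ M, 0 < M → p.Coprime M → ∀ a : ZMod M, a ≠ 0 → A M {a, -a}
  /-- surfaces -/
  surface : ∀ M, 0 < M → p.Coprime M → ∀ s, SurfaceTate p M s → A M s
  /-- standard characters -/
  standard : ∀ M, 0 < M → p.Coprime M → ∀ q : ℕ, q.Prime → q ∣ M → ∀ s, Standard q M s → A M s
  /-- Hodge characters with algebraic lines in characteristic zero -/
  hodge : ∀ M, 0 < M → p.Coprime M → ∀ s, Pool.Agent.H916R2.IsHodge M s → s ≠ 0 →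
    AlgebraicLine M s → A M s
  /-- closed under union -/
  join : ∀ M, 0 < M → p.Coprime M → ∀ s t, A M s → A M t → A M (s + t)
  /-- closed under removal of a pair -/
  cancel : ∀ M, 0 < M → p.Coprime M → ∀ a s, A M (a ::ₘ -a ::ₘ s) → A M s
  /-- descent of the degree -/
  descend : ∀ M N, 0 < M → 0 < N → p.Coprime M → p.Coprime N → ∀ s : Multiset (ZMod M),
    A (N * M) (s.map fun a => ((N * a.val : ℕ) : ZMod (N * M))) → A M s

/-- All prime divisors of `m` are `2`, `a` or `b`. -/
def PrimesIn (m a b : ℕ) : Prop := ∀ r : ℕ, r.Prime → r ∣ m → r = 2 ∨ r = a ∨ r = b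

/-- The degrees: the prime divisors of `m` are among `2, 3, 5`, or `2, 3, 7`, or `2, 3, 11`, or
`2, 3, 13`, or `2, q` for a prime `q` congruent to `7` modulo `8`; or `4` does not divide `m` and
they are among `2, 5, 7`, or `2, 3, 17`, or `2, 3, 19`, or `2, q` for a prime `q`. -/
def GoodDegree (m : ℕ) : Prop :=
  PrimesIn m 3 5 ∨ PrimesIn m 3 7 ∨ PrimesIn m 3 11 ∨ PrimesIn m 3 13 ∨
  (∃ q : ℕ, q.Prime ∧ q % 8 = 7 ∧ PrimesIn m q q) ∨
  (¬ 4 ∣ m ∧ (PrimesIn m 5 7 ∨ PrimesIn m 3 17 ∨ PrimesIn m 3 19 ∨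
    ∃ q : ℕ, q.Prime ∧ PrimesIn m q q))

lemma good_iff {m : ℕ} (h : GoodDegree m) : GoodDegreeP m := by
  rcases h with h | h | h | h | ⟨q, hq, hq7, h⟩ | ⟨h4, h | h | h | ⟨q, hq, h⟩⟩
  · exact Or.inl h
  · exact Or.inr (Or.inl h)
  · exact Or.inr (Or.inr (Or.inl h))
  · exact Or.inr (Or.inr (Or.inr (Or.inl h)))
  · exact Or.inr (Or.inr (Or.inr (Or.inr (Or.inl ⟨q, hq, hq7,
      fun r hr hrm => (h r hr hrm).imp id (fun h' => h'.elim id id)⟩))))
  · exact Or.inr (Or.inr (Or.inr (Or.inr (Or.inr ⟨h4, Or.inl h⟩))))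
  · exact Or.inr (Or.inr (Or.inr (Or.inr (Or.inr ⟨h4, Or.inr (Or.inl h)⟩))))
  · exact Or.inr (Or.inr (Or.inr (Or.inr (Or.inr ⟨h4, Or.inr (Or.inr (Or.inl h))⟩))))
  · exact Or.inr (Or.inr (Or.inr (Or.inr (Or.inr ⟨h4, Or.inr (Or.inr (Or.inr ⟨q, hq,
      fun r hr hrm => (h r hr hrm).imp id (fun h' => h'.elim id id)⟩))⟩))))

lemma dual_ne' {N : ℕ} {I : Type} (S : LocalSystems N I) (x : Letter S.labels) : dual x ≠ x := by
  intro h
  have h1 : S.star x.1 = x.1 := by
    have := congrArg Sigma.fst h
    rwa [dual_fst] at this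
  have h2 : ((dual x).2 : ℕ) = x.2 := by rw [h]
  rw [dual_of_not (by exact Bool.false_ne_true)] at h2
  simp only [Fin.val_cast, Fin.val_rev] at h2
  have h3 := S.even_dim x.1 h1
  have h4 : (x.2 : ℕ) < S.dim x.1 := x.2.2
  have h5 : S.dim x.1 - ((x.2 : ℕ) + 1) = x.2 := h2
  rw [Nat.even_iff] at h3
  omega

/-- Words and Tate tensors with values in the cohomology of a variety. -/
theorem main (p : ℕ) (hp : p.Prime) (N : ℕ) [NeZero N] (hpN : p.Coprime N) (I : Type) [Fintype I]
    (S : LocalSystems N I) (W : Type) [AddCommGroup W] [Module ℂ W]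
    (F : (ZMod N)ˣ → ℚ → Submodule ℂ W) (c : ℤ) (s : ℕ)
    (x : (Fin s → Letter S.labels) → W) (hx : IsTateTensor p F c x)
    (w : Fin s → Letter S.labels) (hw : x w ≠ 0) :
    ∃ (l r : ℕ) (μ : Fin l → I)
      (e : (Σ j : Fin l, Fin (S.labels.dim (μ j))) ⊕ (Fin r × Fin 2) ≃ Fin s),
      (∀ j a, w (e (Sum.inl ⟨j, a⟩)) = ⟨μ j, a⟩) ∧
      (∀ k, w (e (Sum.inr (k, 1))) = dual (w (e (Sum.inr (k, 0))))) ∧
      (∀ t : (ZMod N)ˣ, x w ∈ F t (c - s / 2 - excess p (t : ZMod N) (exAll S.labels μ))) ∧
      ((∀ i, S.ex i = 0) → ∀ t : (ZMod N)ˣ, x w ∈ F t (c - s / 2)) ∧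
      (Integral F → (∀ t : (ZMod N)ˣ, x w ∈ F t (c - s / 2)) ∧
        IsTate p N (exAll S.labels μ) ∧
        ((N ≤ 54 ∨ GoodDegree N ∨ ∃ j : ℕ, ∀ q : ℕ, q.Prime → q ∣ N → q ≠ 2 → q ∣ p ^ j + 1) →
          ∀ A : ∀ M : ℕ, Multiset (ZMod M) → Prop, Admissible p A →
            A N (exAll S.labels μ))) := by
  classical
  obtain ⟨l, r, μ, e, hd⟩ := exists_decomp (dual_ne' S) (hx.torus w hw)
  have htype : ∀ t : (ZMod N)ˣ, x w ∈ F t (c - s / 2 - excess p (t : ZMod N) (exAll S.labels μ)) := by
    intro t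
    have h1 := value_type (c := (c : ℚ)) hpN hx.type hd t
    rwa [Fintype.card_fin] at h1
  refine ⟨l, r, μ, e, hd.2.1, hd.2.2, htype, fun hex t => ?_, fun hF => ?_⟩
  · have h1 := htype t
    have h2 : exAll S.labels μ = 0 := by
      unfold exAll
      exact Finset.sum_eq_zero fun j _ => hex (μ j)
    rw [h2, excess_zero, sub_zero] at h1
    exact h1
  · have h0 := exAll_zero_notMem (Λ := S.labels) μ
    obtain ⟨hexc, hs⟩ := excess_eq_zero hpN hF h0 hw htype
    have hq := dim_decomposed e
    rw [Fintype.card_fin] at hq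
    have hT : IsTate p N (exAll S.labels μ) :=
      isTate_of_excess hpN h0 (even_exAll' μ hq hs) (exAll_sum_zero (Λ := S.labels) μ) hexc
    refine ⟨fun t => ?_, hT, fun hN A hA => ?_⟩
    · have h1 := htype t
      rw [hexc t, sub_zero] at h1
      exact h1
    · have hC : AdmC p A :=
        ⟨hA.pair, hA.surface, hA.standard, hA.hodge, hA.join, hA.cancel, hA.descend⟩
      rcases hN with hN | hN | ⟨j, hj⟩
      · exact hC.all hp (NeZero.pos N) hpN (goodDegreeP_le (NeZero.pos N) hN) hT
      · exact hC.all hp (NeZero.pos N) hpN (good_iff hN) hT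
      · exact hC.super hp (NeZero.pos N) hpN hj hT

end Pool.Agent.Q59.TC.Sys
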