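import Pool.Agent.Q59.GC.Main

/-!
# Words annihilated by the cocharacters of a maximal torus of `D`
-/

namespace Pool.Agent.Q59.TC

open Finset Pool.Agent.Q59.GC

variable {N : ℕ} {I : Type} {Λ : Labels N I} [DecidableEq I]

/-- the sum of the values of a cocharacter of the maximal torus of `D` on the letters of the word
vanishes -/
def TorusInv {κ : Type} [Fintype κ] (w : κ → Letter Λ) : Prop :=
  ∀ a : Letter Λ → ℤ, (∀ y, a y + a (dual y) = 0) →
    (∀ i, Λ.star i ≠ i → ∑ j, a ⟨i, j⟩ = 0) → ∑ k, a (w k) = 0

lemma net_const {κ : Type} [Fintype κ] {w : κ → Letter Λ} (h : TorusInv w) (i : I)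
    (a b : Fin (Λ.dim i)) : net w ⟨i, a⟩ = net w ⟨i, b⟩ := by
  by_cases hi : Λ.star i = i
  · have key : ∀ y : Letter Λ, y.1 = i → net w y = 0 := by
      intro y hy
      rw [← sum_single w y]
      refine h (fun z => (if z = y then (1 : ℤ) else 0) -
        (if z = dual y then 1 else 0)) (fun z => ?_) (fun ν hν => ?_)
      · simp only [dual_eq_iff, dual_dual]
        ring
      · have hνi : ν ≠ i := by
          rintro rfl
          exact hν hi
        refine sum_eq_zero fun k _ => ?_
        rw [if_neg, if_neg]
        · ring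
        · intro h
          apply hνi
          have h1 : ν = (dual y).1 := congrArg Sigma.fst h
          rw [h1, dual_fst, hy, hi]
        · intro h
          apply hνi
          have h1 : ν = y.1 := congrArg Sigma.fst h
          rw [h1, hy]
    rw [key _ rfl, key _ rfl]
  · have h0 := h (fun z =>
      ((if z = ⟨i, a⟩ then (1 : ℤ) else 0) - (if z = dual ⟨i, a⟩ then 1 else 0)) -
      ((if z = ⟨i, b⟩ then (1 : ℤ) else 0) - (if z = dual ⟨i, b⟩ then 1 else 0))) (fun z => ?_)
      (fun ν hν => ?_)
    · rw [sum_sub_distrib, sum_single, sum_single] at h0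
      linarith
    · simp only [dual_eq_iff, dual_dual]
      ring
    · by_cases h1 : ν = i
      · subst h1
        have e2 : ∀ k c, (⟨ν, k⟩ : Letter Λ) ≠ dual ⟨ν, c⟩ := by
          intro k c h
          have h2 : ν = (dual (⟨ν, c⟩ : Letter Λ)).1 := congrArg Sigma.fst h
          rw [dual_fst] at h2
          exact hi h2.symm
        simp only [mk_eq_iff, if_neg (e2 _ _), sub_zero]
        rw [sum_sub_distrib, sum_ite_eq' univ a, sum_ite_eq' univ b, if_pos (mem_univ _),
          if_pos (mem_univ _), sub_self]
      by_cases h2 : ν = Λ.star i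
      · have e2 : ∀ k c, (⟨ν, k⟩ : Letter Λ) ≠ ⟨i, c⟩ := fun k c h => h1 (congrArg Sigma.fst h)
        have e3 : ∀ c, ∃ c' : Fin (Λ.dim ν), dual ⟨i, c⟩ = (⟨ν, c'⟩ : Letter Λ) := by
          intro c
          exact exists_mk _ (by rw [dual_fst, h2])
        obtain ⟨a', ha'⟩ := e3 a
        obtain ⟨b', hb'⟩ := e3 b
        simp only [if_neg (e2 _ _), ha', hb', mk_eq_iff, zero_sub]
        rw [sum_sub_distrib, sum_neg_distrib, sum_neg_distrib, sum_ite_eq' univ a',
          sum_ite_eq' univ b', if_pos (mem_univ _), if_pos (mem_univ _), sub_self]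
      · refine sum_eq_zero fun k _ => ?_
        have e2 : ∀ c, (⟨ν, k⟩ : Letter Λ) ≠ ⟨i, c⟩ := fun c h => h1 (congrArg Sigma.fst h)
        have e3 : ∀ c, (⟨ν, k⟩ : Letter Λ) ≠ dual ⟨i, c⟩ := by
          intro c h
          apply h2
          have h3 : ν = (dual (⟨i, c⟩ : Letter Λ)).1 := congrArg Sigma.fst h
          rw [h3, dual_fst]
        rw [if_neg (e2 a), if_neg (e2 b), if_neg (e3 a), if_neg (e3 b)]
        ring

/-- the contribution of a letter to the net number of `x` -/
def ct (x y : Letter Λ) : ℤ := (if y = x then (1 : ℤ) else 0) - (if y = dual x then 1 else 0)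

lemma net_split {κ : Type} [Fintype κ] (w : κ → Letter Λ) (p : κ → Prop) [DecidablePred p]
    (x : Letter Λ) : net w x = net (fun k : {k // p k} => w k) x +
      ∑ k ∈ univ.filter (fun k => ¬ p k), ct x (w k) := by
  rw [← sum_single w x, ← sum_single (fun k : {k // p k} => w k) x]
  have h1 := Fintype.sum_subtype_add_sum_subtype p (fun k => ct x (w k))
  have h2 : ∑ k : {k // ¬ p k}, ct x (w k) = ∑ k ∈ univ.filter (fun k => ¬ p k), ct x (w k) :=
    (Finset.sum_subtype (p := fun k => ¬ p k) (univ.filter fun k => ¬ p k) (by simp)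
      (fun k => ct x (w k))).symm
  rw [h2] at h1
  exact h1.symm

/-- a word whose letters form pairs and full blocks -/
def Decomposed {κ : Type} (w : κ → Letter Λ) (L P : Type) (μ : L → I)
    (e : (Σ j : L, Fin (Λ.dim (μ j))) ⊕ (P × Fin 2) ≃ κ) : Prop :=
  (∀ j, 0 < Λ.dim (μ j)) ∧ (∀ j a, w (e (Sum.inl ⟨j, a⟩)) = ⟨μ j, a⟩) ∧
    ∀ q, w (e (Sum.inr (q, 1))) = dual (w (e (Sum.inr (q, 0))))

lemma decomp (hd : ∀ x : Letter Λ, dual x ≠ x) (n : ℕ) : ∀ (κ : Type) [Fintype κ]
    (w : κ → Letter Λ), Fintype.card κ = n →
    (∀ (i : I) (a b : Fin (Λ.dim i)), net w ⟨i, a⟩ = net w ⟨i, b⟩) →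
    ∃ (L P : Type) (_ : Fintype L) (_ : Fintype P) (μ : L → I)
      (e : (Σ j : L, Fin (Λ.dim (μ j))) ⊕ (P × Fin 2) ≃ κ), Decomposed w L P μ e := by
  classical
  induction n using Nat.strong_induction_on with
  | _ n ih =>
  intro κ _ w hcard heq
  by_cases hA : ∃ k k', w k' = dual (w k)
  · -- remove a pair
    obtain ⟨k, k', hk⟩ := hA
    have hne : k' ≠ k := by
      rintro rfl
      exact hd _ hk.symm
    let p : κ → Prop := fun m => m ≠ k ∧ m ≠ k'
    have hfil : univ.filter (fun m => ¬ p m) = {k, k'} := by
      ext m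
      simp only [p, mem_filter, mem_univ, true_and, mem_insert, mem_singleton]
      tauto
    have hlt : Fintype.card {m // p m} < n := by
      rw [← hcard]
      exact Fintype.card_subtype_lt (p := p) (x := k) (fun h => h.1 rfl)
    have heq' : ∀ (i : I) (a b : Fin (Λ.dim i)), net (fun m : {m // p m} => w m) ⟨i, a⟩ =
        net (fun m : {m // p m} => w m) ⟨i, b⟩ := by
      intro i a b
      have hct : ∀ x : Letter Λ, net w x = net (fun m : {m // p m} => w m) x := by
        intro x
        rw [net_split w p x, hfil, sum_pair hne.symm, hk]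
        unfold ct
        have e1 : (dual (w k) = x) ↔ (w k = dual x) := dual_eq_iff
        have e2 : (dual (w k) = dual x) ↔ (w k = x) := by rw [dual_eq_iff, dual_dual]
        simp only [e1, e2]
        ring
      rw [← hct, ← hct]
      exact heq i a b
    obtain ⟨L, P, hL, hP, μ, e, h0, h1, h2⟩ := ih _ hlt {m // p m} (fun m => w m) rfl heq'
    let f : (Σ j : L, Fin (Λ.dim (μ j))) ⊕ (Option P × Fin 2) → κ := fun u => match u with
      | Sum.inl s => (e (Sum.inl s)).1
      | Sum.inr (some q, c) => (e (Sum.inr (q, c))).1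
      | Sum.inr (none, c) => if c = 0 then k else k'
    have hc2 : ∀ c : Fin 2, c = 0 ∨ c = 1 := by decide
    have hf : Function.Bijective f := by
      constructor
      · rintro (s | ⟨_ | q, c⟩) (s' | ⟨_ | q', c'⟩) h
        · exact congrArg Sum.inl (Sum.inl_injective (e.injective (Subtype.ext h)))
        · exfalso
          change (e (Sum.inl s)).1 = if c' = 0 then k else k' at h
          split_ifs at h
          · exact (e (Sum.inl s)).2.1 h
          · exact (e (Sum.inl s)).2.2 h
        · exfalso
          have := e.injective (Subtype.ext h)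
          cases this
        · exfalso
          change (if c = 0 then k else k') = (e (Sum.inl s')).1 at h
          split_ifs at h
          · exact (e (Sum.inl s')).2.1 h.symm
          · exact (e (Sum.inl s')).2.2 h.symm
        · change (if c = 0 then k else k') = (if c' = 0 then k else k') at h
          have : c = c' := by
            rcases hc2 c with rfl | rfl <;> rcases hc2 c' with rfl | rfl
            · rfl
            · rw [if_pos rfl, if_neg (by decide)] at h
              exact absurd h.symm hne
            · rw [if_pos rfl, if_neg (by decide)] at h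
              exact absurd h hne
            · rfl
          rw [this]
        · exfalso
          change (if c = 0 then k else k') = (e (Sum.inr (q', c'))).1 at h
          split_ifs at h
          · exact (e (Sum.inr (q', c'))).2.1 h.symm
          · exact (e (Sum.inr (q', c'))).2.2 h.symm
        · exfalso
          have := e.injective (Subtype.ext h)
          cases this
        · exfalso
          change (e (Sum.inr (q, c))).1 = if c' = 0 then k else k' at h
          split_ifs at h
          · exact (e (Sum.inr (q, c))).2.1 h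
          · exact (e (Sum.inr (q, c))).2.2 h
        · have h3 := Sum.inr_injective (e.injective (Subtype.ext h))
          rw [Prod.mk.injEq] at h3
          rw [h3.1, h3.2]
      · intro m
        by_cases hm : p m
        · rcases hu : e.symm ⟨m, hm⟩ with s | ⟨q, c⟩
          · refine ⟨Sum.inl s, ?_⟩
            change (e (Sum.inl s)).1 = m
            rw [← hu, Equiv.apply_symm_apply]
          · refine ⟨Sum.inr (some q, c), ?_⟩
            change (e (Sum.inr (q, c))).1 = m
            rw [← hu, Equiv.apply_symm_apply]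
        · have : m = k ∨ m = k' := by
            simp only [p] at hm
            tauto
          rcases this with rfl | rfl
          · exact ⟨Sum.inr (none, 0), rfl⟩
          · exact ⟨Sum.inr (none, 1), rfl⟩
    refine ⟨L, Option P, hL, inferInstance, μ, Equiv.ofBijective f hf, h0, fun j a => ?_, ?_⟩
    · exact h1 j a
    · rintro (_ | q)
      · exact hk
      · exact h2 q
  by_cases hκ : IsEmpty κ
  · refine ⟨PEmpty, PEmpty, inferInstance, inferInstance, fun j => j.elim,
      Equiv.equivOfIsEmpty _ _, fun j => j.elim, fun j => j.elim, fun q => q.elim⟩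
  · -- remove a block
    rw [not_isEmpty_iff] at hκ
    obtain ⟨k0⟩ := hκ
    have hocc : ∀ k, occ w (dual (w k)) = 0 := by
      intro k
      unfold occ
      rw [card_eq_zero, filter_eq_empty_iff]
      intro m _ hm
      exact hA ⟨k, m, hm⟩
    rcases hw0 : w k0 with ⟨i, a0⟩
    have hpos : ∀ a : Fin (Λ.dim i), ∃ m, w m = ⟨i, a⟩ := by
      intro a
      have e1 : net w ⟨i, a⟩ = net w (w k0) := by rw [hw0]; exact heq i a a0
      have e2 : net w (w k0) = occ w (w k0) := by
        unfold net
        rw [hocc k0]
        simp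
      have e3 : 0 < occ w (w k0) := card_pos.mpr ⟨k0, by simp⟩
      have e4 : 0 < occ w ⟨i, a⟩ := by
        have e5 : (occ w ⟨i, a⟩ : ℤ) = net w ⟨i, a⟩ + occ w (dual ⟨i, a⟩) := by
          unfold net; ring
        have e6 : (0 : ℤ) < occ w ⟨i, a⟩ := by
          rw [e5, e1, e2]
          positivity
        exact_mod_cast e6
      obtain ⟨m, hm⟩ := card_pos.mp e4
      exact ⟨m, (mem_filter.mp hm).2⟩
    choose g hg using hpos
    have hginj : Function.Injective g := by
      intro a b h
      have h1 := hg a
      rw [h, hg b] at h1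
      exact (mk_eq_iff.mp h1).symm
    let p : κ → Prop := fun m => ∀ a, m ≠ g a
    have hfil : univ.filter (fun m => ¬ p m) = univ.image g := by
      ext m
      simp only [p, mem_filter, mem_univ, true_and, mem_image, not_forall, not_not]
      exact ⟨fun ⟨a, h⟩ => ⟨a, h.symm⟩, fun ⟨a, h⟩ => ⟨a, h.symm⟩⟩
    have hlt : Fintype.card {m // p m} < n := by
      rw [← hcard]
      exact Fintype.card_subtype_lt (p := p) (x := g a0) (fun h => h a0 rfl)
    have hct : ∀ x : Letter Λ, net w x = net (fun m : {m // p m} => w m) x +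
        ((if x.1 = i then (1 : ℤ) else 0) - (if (dual x).1 = i then 1 else 0)) := by
      intro x
      rw [net_split w p x, hfil, sum_image fun a _ b _ h => hginj h]
      congr 1
      have e1 : ∀ y : Letter Λ, (∑ a, if w (g a) = y then (1 : ℤ) else 0) =
          if y.1 = i then 1 else 0 := by
        rintro ⟨ν, b⟩
        by_cases hν : ν = i
        · subst hν
          rw [if_pos rfl]
          have : ∀ a, (w (g a) = (⟨ν, b⟩ : Letter Λ)) ↔ a = b := fun a => by
            rw [hg a]; exact mk_eq_iff
          simp only [this]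
          rw [sum_ite_eq' univ b, if_pos (mem_univ _)]
        · rw [if_neg hν]
          refine sum_eq_zero fun a _ => if_neg ?_
          rw [hg a]
          intro h
          exact hν (congrArg Sigma.fst h).symm
      unfold ct
      rw [sum_sub_distrib, e1, e1]
    have heq' : ∀ (ν : I) (a b : Fin (Λ.dim ν)), net (fun m : {m // p m} => w m) ⟨ν, a⟩ =
        net (fun m : {m // p m} => w m) ⟨ν, b⟩ := by
      intro ν a b
      have e1 := hct ⟨ν, a⟩
      have e2 := hct ⟨ν, b⟩
      rw [dual_fst] at e1 e2
      have e3 := heq ν a b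
      linarith
    obtain ⟨L, P, hL, hP, μ, e, h0, h1, h2⟩ := ih _ hlt {m // p m} (fun m => w m) rfl heq'
    let μ' : Option L → I := fun o => o.elim i μ
    let f : (Σ j : Option L, Fin (Λ.dim (μ' j))) ⊕ (P × Fin 2) → κ := fun u => match u with
      | Sum.inl ⟨none, a⟩ => g a
      | Sum.inl ⟨some j, a⟩ => (e (Sum.inl ⟨j, a⟩)).1
      | Sum.inr s => (e (Sum.inr s)).1
    have hf : Function.Bijective f := by
      constructor
      · rintro (⟨_ | j, a⟩ | s) (⟨_ | j', a'⟩ | s') h
        · have := hginj h
          rw [this]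
        · exact absurd h.symm ((e (Sum.inl ⟨j', a'⟩)).2 a)
        · exact absurd h.symm ((e (Sum.inr s')).2 a)
        · exact absurd h ((e (Sum.inl ⟨j, a⟩)).2 a')
        · have h3 := Sum.inl_injective (e.injective (Subtype.ext h))
          exact congrArg (fun z : (Σ j : L, Fin (Λ.dim (μ j))) =>
            (Sum.inl ⟨some z.1, z.2⟩ : (Σ j : Option L, Fin (Λ.dim (μ' j))) ⊕ (P × Fin 2))) h3
        · exfalso
          have := e.injective (Subtype.ext h)
          cases this
        · exact absurd h ((e (Sum.inr s)).2 a')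
        · exfalso
          have := e.injective (Subtype.ext h)
          cases this
        · exact congrArg Sum.inr (Sum.inr_injective (e.injective (Subtype.ext h)))
      · intro m
        by_cases hm : p m
        · rcases hu : e.symm ⟨m, hm⟩ with ⟨j, a⟩ | s
          · refine ⟨Sum.inl ⟨some j, a⟩, ?_⟩
            change (e (Sum.inl ⟨j, a⟩)).1 = m
            rw [← hu, Equiv.apply_symm_apply]
          · refine ⟨Sum.inr s, ?_⟩
            change (e (Sum.inr s)).1 = m
            rw [← hu, Equiv.apply_symm_apply]
        · simp only [p, not_forall, not_not] at hm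
          obtain ⟨a, rfl⟩ := hm
          exact ⟨Sum.inl ⟨none, a⟩, rfl⟩
    refine ⟨Option L, P, inferInstance, hP, μ', Equiv.ofBijective f hf, ?_, ?_, fun q => h2 q⟩
    · rintro (_ | j)
      · exact (Nat.zero_le _).trans_lt a0.2
      · exact h0 j
    · rintro (_ | j) a
      · exact hg a
      · exact h1 j a

/-- the same with the index sets `Fin l` and `Fin p` -/
theorem exists_decomp (hd : ∀ x : Letter Λ, dual x ≠ x) {κ : Type} [Fintype κ]
    {w : κ → Letter Λ} (h : TorusInv w) :
    ∃ (l p : ℕ) (μ : Fin l → I) (e : (Σ j : Fin l, Fin (Λ.dim (μ j))) ⊕ (Fin p × Fin 2) ≃ κ),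
      Decomposed w (Fin l) (Fin p) μ e := by
  obtain ⟨L, P, hL, hP, μ, e, h0, h1, h2⟩ := decomp hd _ κ w rfl (net_const h)
  let η := (Fintype.equivFin L).symm
  let θ := (Fintype.equivFin P).symm
  refine ⟨Fintype.card L, Fintype.card P, fun j => μ (η j),
    (Equiv.sumCongr (Equiv.sigmaCongrLeft (β := fun j => Fin (Λ.dim (μ j))) η)
      (Equiv.prodCongr θ (Equiv.refl _))).trans e, fun j => h0 _, fun j a => ?_, fun q => ?_⟩
  · exact h1 (η j) a
  · exact h2 (θ q)

end Pool.Agent.Q59.TC
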